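import Pool.Agent.Helper92.Ru.GoalsR

/-! R3: the generalised Wronskian -/

set_option autoImplicit false

open MvPolynomial

namespace Pool.Agent.Helper30.Ru

open Pool.Agent.Helper92.Ru

theorem genWron (hHB : HasseBasic) (hPC : PropConst) : GenWron := by
  intro k _ _ σ _ _ s
  induction s with
  | zero =>
    intro f _
    refine ⟨fun i => i.elim0, fun i => i.elim0, ?_⟩
    rw [Matrix.det_isEmpty]
    exact one_ne_zero
  | succ s ih =>
    intro f hf
    obtain ⟨μ, hμ, hdet⟩ := ih (fun j => f (Fin.castSucc j))
      (hf.comp _ (Fin.castSucc_injective s))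
    by_contra hcon
    push Not at hcon
    -- cofactors
    let N : Fin (s + 1) → MvPolynomial σ k := fun j =>
      (-1) ^ (s + (j : ℕ)) *
        (Matrix.of (fun (i : Fin s) (l : Fin s) => hasse (μ i) (f (j.succAbove l)))).det
    have hNlast : N (Fin.last s) =
        (Matrix.of (fun (i : Fin s) (l : Fin s) => hasse (μ i) (f (Fin.castSucc l)))).det := by
      simp only [N, Fin.val_last, Fin.succAbove_last]
      rw [← two_mul, pow_mul]
      simp
    have hN0 : N (Fin.last s) ≠ 0 := by
      rw [hNlast]; exact hdet
    have hstar : ∀ ν : σ →₀ ℕ, (∑ h, ν h) ≤ s → ∑ j, N j * hasse ν (f j) = 0 := by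
      intro ν hν
      have h1 := hcon (Fin.snoc (α := fun _ => (σ →₀ ℕ)) μ ν) (by
        intro i
        refine Fin.lastCases ?_ (fun i => ?_) i
        · simpa using hν
        · simpa using hμ i)
      rw [Matrix.det_succ_row _ (Fin.last s)] at h1
      rw [← h1]
      refine Finset.sum_congr rfl (fun j _ => ?_)
      simp only [N, Matrix.of_apply, Fin.snoc_last, Fin.val_last, Fin.succAbove_last]
      have h2 : (Matrix.of (fun (i j : Fin (s + 1)) =>
          hasse ((Fin.snoc (α := fun _ => (σ →₀ ℕ)) μ ν : Fin (s + 1) → (σ →₀ ℕ)) i)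
            (f j))).submatrix Fin.castSucc j.succAbove =
          Matrix.of (fun (i : Fin s) (l : Fin s) => hasse (μ i) (f (j.succAbove l))) := by
        ext1 a b
        simp
      rw [h2]
      ring
    have hder : ∀ (ν : σ →₀ ℕ) (h : σ), (∑ h, ν h) + 1 ≤ s →
        ∑ j, pderiv h (N j) * hasse ν (f j) = 0 := by
      intro ν h hν
      have h1 := congrArg (pderiv h) (hstar ν (by omega))
      rw [map_zero, map_sum] at h1
      have h2 : ∀ j, pderiv h (N j * hasse ν (f j)) =
          pderiv h (N j) * hasse ν (f j) +
            ((ν h + 1 : ℕ) : k) • (N j * hasse (ν + Finsupp.single h 1) (f j)) := by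
        intro j
        rw [Derivation.leibniz, (hHB k σ ν (f j)).2.1 h]
        simp only [smul_eq_mul, mul_smul_comm]
        ring
      rw [Finset.sum_congr rfl (fun j _ => h2 j), Finset.sum_add_distrib, ← Finset.smul_sum,
        hstar (ν + Finsupp.single h 1) ?_, smul_zero, add_zero] at h1
      · exact h1
      · simp only [Finsupp.add_apply, Finset.sum_add_distrib]
        have : ∑ x, (Finsupp.single h 1 : σ →₀ ℕ) x = 1 := by
          simp [Finsupp.single_apply]
        omega
    have hprop : ∀ (h : σ) (j : Fin s),
        N (Fin.last s) * pderiv h (N (Fin.castSucc j)) =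
          N (Fin.castSucc j) * pderiv h (N (Fin.last s)) := by
      intro h
      have hv := Matrix.eq_zero_of_mulVec_eq_zero (M := Matrix.of (fun (i : Fin s) (l : Fin s) =>
          hasse (μ i) (f (Fin.castSucc l)))) (v := fun j : Fin s =>
          N (Fin.last s) * pderiv h (N (Fin.castSucc j)) -
          N (Fin.castSucc j) * pderiv h (N (Fin.last s))) hdet (by
        funext i
        have hi : (∑ h, μ i h) + 1 ≤ s := by
          have := hμ i
          have := i.isLt
          omega
        have e1 := hstar (μ i) (by omega)
        have e2 := hder (μ i) h hi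
        rw [Fin.sum_univ_castSucc] at e1 e2
        simp only [Matrix.mulVec, dotProduct, Matrix.of_apply, Pi.zero_apply]
        have e3 : ∑ x : Fin s, (hasse (μ i)) (f x.castSucc) *
            (N (Fin.last s) * (pderiv h) (N x.castSucc) -
              N x.castSucc * (pderiv h) (N (Fin.last s))) =
            N (Fin.last s) * (∑ x : Fin s, pderiv h (N x.castSucc) * hasse (μ i) (f x.castSucc)) -
            pderiv h (N (Fin.last s)) * ∑ x : Fin s, N x.castSucc * hasse (μ i) (f x.castSucc) := by
          rw [Finset.mul_sum, Finset.mul_sum, ← Finset.sum_sub_distrib]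
          refine Finset.sum_congr rfl (fun x _ => ?_)
          ring
        rw [e3]
        linear_combination N (Fin.last s) * e2 - pderiv h (N (Fin.last s)) * e1)
      intro j
      have := congrFun hv j
      simp only [Pi.zero_apply] at this
      exact sub_eq_zero.mp this
    have hc : ∀ j : Fin s, ∃ c : k, N (Fin.castSucc j) = C c * N (Fin.last s) := fun j =>
      hPC k σ (N (Fin.castSucc j)) (N (Fin.last s)) hN0 (fun h => hprop h j)
    choose c hc using hc
    have h0 := hstar 0 (by simp)
    rw [Fin.sum_univ_castSucc] at h0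
    have hh0 : ∀ p : MvPolynomial σ k, hasse 0 p = p := fun p => (hHB k σ 0 p).2.2.2
    simp only [hh0, hc] at h0
    have h3 : N (Fin.last s) * (∑ j : Fin s, c j • f j.castSucc + f (Fin.last s)) = 0 := by
      rw [← h0, mul_add, Finset.mul_sum]
      congr 1
      refine Finset.sum_congr rfl (fun x _ => ?_)
      rw [smul_eq_C_mul]
      ring
    have h4 : ∑ j : Fin s, c j • f j.castSucc + f (Fin.last s) = 0 :=
      (mul_eq_zero.mp h3).resolve_left hN0
    have h5 := Fintype.linearIndependent_iff.mp hf (Fin.snoc (α := fun _ => k) c 1) (by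
      rw [Fin.sum_univ_castSucc]
      simpa using h4) (Fin.last s)
    simp at h5

end Pool.Agent.Helper30.Ru
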