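import Pool.Agent.Helper92.Ru.GoalsV

/-! P5: local generator and denominators -/

set_option autoImplicit false

open NumberField IsDedekindDomain

namespace Pool.Agent.Helper30.Ru

open Pool.Agent.Helper92.Ru

section local1

variable {K : Type} [Field K] [NumberField K]

theorem place_int_le_one (v : FinitePlace K) (a : 𝓞 K) : v (a : K) ≤ 1 := by
  rw [← FinitePlace.norm_embedding_eq]
  exact FinitePlace.norm_le_one K v.maximalIdeal a

theorem place_int_lt_one_iff (v : FinitePlace K) (a : 𝓞 K) :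
    v (a : K) < 1 ↔ a ∈ v.maximalIdeal.asIdeal := by
  rw [← FinitePlace.norm_embedding_eq]
  exact FinitePlace.norm_lt_one_iff_mem K v.maximalIdeal a

theorem place_int_eq_one_iff (v : FinitePlace K) (a : 𝓞 K) :
    v (a : K) = 1 ↔ a ∉ v.maximalIdeal.asIdeal := by
  rw [← FinitePlace.norm_embedding_eq]
  exact FinitePlace.norm_eq_one_iff_notMem K v.maximalIdeal a

/-- local lemma: an element integral at `v` has a denominator which is a unit at `v` -/
theorem exists_mul_eq (v : FinitePlace K) (x : K) (hx : v x ≤ 1) :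
    ∃ a b : 𝓞 K, v (b : K) = 1 ∧ x * (b : K) = (a : K) := by
  have h1 : v.maximalIdeal.valuation K x ≤ 1 := by
    rw [← FinitePlace.norm_embedding_eq, FinitePlace.norm_embedding'] at hx
    have h2 : WithZeroMulInt.toNNReal (HeightOneSpectrum.absNorm_ne_zero v.maximalIdeal)
        (v.maximalIdeal.valuation K x) ≤ 1 := by exact_mod_cast hx
    rwa [WithZeroMulInt.toNNReal_le_one_iff
      (HeightOneSpectrum.one_lt_absNorm_nnreal v.maximalIdeal)] at h2
  obtain ⟨n, d, hnd⟩ := HeightOneSpectrum.exists_primeCompl_mul_eq_of_integer v.maximalIdeal x h1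
  exact ⟨n, d, (place_int_eq_one_iff v _).2 d.2, hnd⟩

theorem place_sum_lt {ι : Type} (v : FinitePlace K) (s : Finset ι) (f : ι → K) (M : ℝ)
    (hM : 0 < M) (h : ∀ i ∈ s, v (f i) < M) : v (∑ i ∈ s, f i) < M := by
  classical
  induction s using Finset.induction_on with
  | empty => simpa using hM
  | insert a s ha ih =>
    rw [Finset.sum_insert ha]
    exact (FinitePlace.add_le v _ _).trans_lt (max_lt (h a (by simp))
      (ih (fun i hi => h i (by simp [hi]))))

theorem place_neg (v : FinitePlace K) (x : K) : v (-x) = v x := map_neg_eq_map v x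

end local1

section above

variable {k : Type} [Field k] [NumberField k] {L : Type} [Field L] [NumberField L] [Algebra k L]

/-- a place whose ideal lies over the ideal of `v` is above `v` -/
theorem above_of_comap (v : FinitePlace k) (w : FinitePlace L)
    (h : w.maximalIdeal.asIdeal.comap (algebraMap (𝓞 k) (𝓞 L)) = v.maximalIdeal.asIdeal) :
    Above v w := by
  have hmem : ∀ a : 𝓞 k, a ∈ v.maximalIdeal.asIdeal ↔
      algebraMap (𝓞 k) (𝓞 L) a ∈ w.maximalIdeal.asIdeal := by
    intro a
    rw [← h, Ideal.mem_comap]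
  have hcast : ∀ a : 𝓞 k, algebraMap k L (a : k) = ((algebraMap (𝓞 k) (𝓞 L) a : 𝓞 L) : L) :=
    fun a => rfl
  have hlt : ∀ a : 𝓞 k, v (a : k) < 1 ↔ w (algebraMap k L (a : k)) < 1 := by
    intro a
    rw [hcast, place_int_lt_one_iff, place_int_lt_one_iff, hmem]
  have heq : ∀ a : 𝓞 k, v (a : k) = 1 ↔ w (algebraMap k L (a : k)) = 1 := by
    intro a
    rw [hcast, place_int_eq_one_iff, place_int_eq_one_iff, hmem]
  intro y
  rcases le_or_gt (v y) 1 with hy | hy
  · obtain ⟨a, b, hb, hab⟩ := exists_mul_eq v y hy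
    have h1 : v y = v (a : k) := by rw [← hab, map_mul, hb, mul_one]
    have h2 : w (algebraMap k L y) = w (algebraMap k L (a : k)) := by
      rw [← hab, map_mul, map_mul, (heq b).1 hb, mul_one]
    rw [h1, h2, hlt]
  · have hy0 : y ≠ 0 := by
      rintro rfl
      rw [map_zero] at hy
      linarith
    have hy1 : v y⁻¹ ≤ 1 := by
      rw [map_inv₀]
      exact inv_le_one_of_one_le₀ hy.le
    obtain ⟨a, b, hb, hab⟩ := exists_mul_eq v y⁻¹ hy1
    have h2 : w (algebraMap k L y⁻¹) ≤ 1 := by
      have h3 : w (algebraMap k L y⁻¹) = w (algebraMap k L (a : k)) := by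
        rw [← hab, map_mul, map_mul, (heq b).1 hb, mul_one]
      rw [h3, hcast]
      exact place_int_le_one w _
    rw [map_inv₀, map_inv₀] at h2
    have hw0 : 0 < w (algebraMap k L y) :=
      FinitePlace.pos_iff.2 ((map_ne_zero _).2 hy0)
    have h4 : 1 ≤ w (algebraMap k L y) := by
      by_contra hcon
      push Not at hcon
      have := (one_lt_inv₀ hw0).2 hcon
      linarith
    constructor
    · intro h
      linarith
    · intro h
      linarith

/-- lying over -/
theorem exists_above (v : FinitePlace k) (b : Ideal (𝓞 L))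
    (hb : b.comap (algebraMap (𝓞 k) (𝓞 L)) ≤ v.maximalIdeal.asIdeal) :
    ∃ w : FinitePlace L, Above v w ∧ b ≤ w.maximalIdeal.asIdeal := by
  have := v.maximalIdeal.isPrime
  obtain ⟨Q, hQb, hQp, hQ⟩ := Ideal.exists_ideal_over_prime_of_isIntegral
    v.maximalIdeal.asIdeal b hb
  have hQ0 : Q ≠ ⊥ := by
    rintro rfl
    apply v.maximalIdeal.ne_bot
    rw [← hQ]
    exact Ideal.comap_bot_of_injective _ (FaithfulSMul.algebraMap_injective _ _)
  refine ⟨FinitePlace.mk ⟨Q, hQp, hQ0⟩, above_of_comap _ _ ?_, ?_⟩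
  · rw [FinitePlace.maximalIdeal_mk]
    exact hQ
  · rw [FinitePlace.maximalIdeal_mk]
    exact hQb

/-- finitely many places above `v` -/
theorem finite_above (v : FinitePlace k) : {w : FinitePlace L | Above v w}.Finite := by
  obtain ⟨c, hc, hc0⟩ := Submodule.exists_mem_ne_zero_of_ne_bot v.maximalIdeal.ne_bot
  have h1 : v (c : k) < 1 := (place_int_lt_one_iff v c).2 hc
  have h2 : (algebraMap k L (c : k)) ≠ 0 := by
    rw [map_ne_zero]
    exact_mod_cast hc0
  refine (FinitePlace.hasFiniteMulSupport h2).subset (fun w hw => ?_)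
  have h3 : w (algebraMap k L (c : k)) < 1 := (hw _).1 h1
  exact h3.ne

/-- denominators -/
theorem exists_denominator (v : FinitePlace k) (u : L) (hu : ∀ w : FinitePlace L, Above v w → w u ≤ 1) :
    ∃ s : 𝓞 k, v (s : k) = 1 ∧ IsIntegral ℤ (algebraMap k L (s : k) * u) := by
  let b : Ideal (𝓞 L) :=
    { carrier := {β | ∃ c : 𝓞 L, u * (β : L) = (c : L)}
      add_mem' := by
        rintro β β' ⟨c, hc⟩ ⟨c', hc'⟩
        refine ⟨c + c', ?_⟩
        push_cast
        rw [mul_add, hc, hc']
      zero_mem' := ⟨0, by simp⟩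
      smul_mem' := by
        rintro r β ⟨c, hc⟩
        refine ⟨r * c, ?_⟩
        have h1 : ((r • β : 𝓞 L) : L) = (r : L) * (β : L) := map_mul _ _ _
        have h2 : ((r * c : 𝓞 L) : L) = (r : L) * (c : L) := map_mul _ _ _
        rw [h1, h2, ← hc]
        ring }
  by_cases hb : b.comap (algebraMap (𝓞 k) (𝓞 L)) ≤ v.maximalIdeal.asIdeal
  · exfalso
    obtain ⟨w, hw, hbw⟩ := exists_above v b hb
    obtain ⟨a, β, hβ, hab⟩ := exists_mul_eq w u (hu w hw)
    exact (place_int_eq_one_iff w β).1 hβ (hbw ⟨a, hab⟩)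
  · rw [SetLike.not_le_iff_exists] at hb
    obtain ⟨s, hs, hs'⟩ := hb
    refine ⟨s, (place_int_eq_one_iff v s).2 hs', ?_⟩
    obtain ⟨c, hc⟩ := hs
    have : algebraMap k L (s : k) * u = (c : L) := by
      rw [← hc, mul_comm]
      rfl
    rw [this]
    exact c.isIntegral_coe

/-- local generator -/
theorem exists_localGen (n : ℕ) (v : FinitePlace k) (x : Fin (n + 1) → L) (hx : x ≠ 0) :
    ∃ y : L, y ≠ 0 ∧ ∀ w : FinitePlace L, Above v w → w y = ⨆ j, w (x j) := by
  classical
  have hfin : Finite {w : FinitePlace L // Above v w} := (finite_above (L := L) v).to_subtype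
  have hmax : ∀ w : FinitePlace L, ∃ j, w (x j) = ⨆ j, w (x j) := fun w =>
    exists_eq_ciSup_of_finite
  choose J hJ using hmax
  obtain ⟨j0, hj0⟩ := Function.ne_iff.1 hx
  have hle : ∀ (w : FinitePlace L) j, w (x j) ≤ ⨆ j, w (x j) := fun w j =>
    le_ciSup (f := fun j => w (x j)) (Set.finite_range _).bddAbove j
  have hpos : ∀ w : FinitePlace L, 0 < ⨆ j, w (x j) := fun w =>
    (FinitePlace.pos_iff.2 hj0).trans_le (hle w j0)
  have hcop : Pairwise (Function.onFun IsCoprime
      (fun w : {w : FinitePlace L // Above v w} => w.1.maximalIdeal.asIdeal)) := by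
    intro w w' hww
    have := w.1.maximalIdeal.isMaximal
    have := w'.1.maximalIdeal.isMaximal
    apply Ideal.isCoprime_of_isMaximal
    intro h
    apply hww
    apply Subtype.ext
    exact (FinitePlace.maximalIdeal_inj _ _).1 (HeightOneSpectrum.ext h)
  have hc : ∀ j, ∃ c : 𝓞 L, ∀ w : {w : FinitePlace L // Above v w},
      c - (if j = J w.1 then 1 else 0) ∈ w.1.maximalIdeal.asIdeal := fun j =>
    Ideal.exists_forall_sub_mem_ideal hcop (fun w => if j = J w.1 then 1 else 0)
  choose c hc using hc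
  have hc1 : ∀ w : FinitePlace L, Above v w → w (c (J w) : L) = 1 := by
    intro w hw
    rw [place_int_eq_one_iff]
    intro hmem
    have h1 := hc (J w) ⟨w, hw⟩
    simp only [if_true] at h1
    have h2 := Ideal.sub_mem _ hmem h1
    rw [sub_sub_cancel] at h2
    exact w.maximalIdeal.isPrime.ne_top ((Ideal.eq_top_iff_one _).2 h2)
  have hc2 : ∀ w : FinitePlace L, Above v w → ∀ j, j ≠ J w → w (c j : L) < 1 := by
    intro w hw j hj
    rw [place_int_lt_one_iff]
    have h1 := hc j ⟨w, hw⟩
    simpa [hj] using h1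
  have hkey : ∀ w : FinitePlace L, Above v w → w (∑ j, (c j : L) * x j) = ⨆ j, w (x j) := by
    intro w hw
    have hrest : w (∑ j ∈ Finset.univ.erase (J w), (c j : L) * x j) < ⨆ j, w (x j) := by
      refine place_sum_lt w _ _ _ (hpos w) (fun j hj => ?_)
      rw [Finset.mem_erase] at hj
      rw [map_mul]
      calc w (c j : L) * w (x j) ≤ w (c j : L) * ⨆ j, w (x j) :=
            mul_le_mul_of_nonneg_left (hle w j) (apply_nonneg w _)
        _ < 1 * ⨆ j, w (x j) := mul_lt_mul_of_pos_right (hc2 w hw j hj.1) (hpos w)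
        _ = ⨆ j, w (x j) := one_mul _
    have hmain : w ((c (J w) : L) * x (J w)) = ⨆ j, w (x j) := by
      rw [map_mul, hc1 w hw, one_mul, hJ]
    have hsplit : ∑ j, (c j : L) * x j = (c (J w) : L) * x (J w) +
        ∑ j ∈ Finset.univ.erase (J w), (c j : L) * x j :=
      (Finset.add_sum_erase _ _ (Finset.mem_univ (J w))).symm
    apply le_antisymm
    · rw [hsplit]
      exact (FinitePlace.add_le w _ _).trans (max_le hmain.le hrest.le)
    · by_contra hcon
      push Not at hcon
      have h1 : (c (J w) : L) * x (J w) = ∑ j, (c j : L) * x j +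
          -(∑ j ∈ Finset.univ.erase (J w), (c j : L) * x j) := by
        rw [hsplit]
        ring
      have h2 := FinitePlace.add_le w (∑ j, (c j : L) * x j)
        (-(∑ j ∈ Finset.univ.erase (J w), (c j : L) * x j))
      rw [← h1, hmain, place_neg] at h2
      exact absurd h2 (not_le.2 (max_lt hcon hrest))
  refine ⟨∑ j, (c j : L) * x j, ?_, hkey⟩
  obtain ⟨w, hw, _⟩ := exists_above (L := L) v ⊥ (by
    rw [Ideal.comap_bot_of_injective _ (FaithfulSMul.algebraMap_injective _ _)]
    exact bot_le)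
  have h1 := hkey w hw
  have h2 := hpos w
  intro h0
  rw [h0, map_zero] at h1
  linarith

end above

theorem genLoc : GenLoc := by
  intro k _ _ L _ _ _ n v x hx
  classical
  obtain ⟨y, hy0, hy⟩ := exists_localGen n v x hx
  have hs : ∀ j, ∃ s : 𝓞 k, v (s : k) = 1 ∧ IsIntegral ℤ (algebraMap k L (s : k) * (x j / y)) := by
    intro j
    refine exists_denominator v (x j / y) (fun w hw => ?_)
    rw [map_div₀]
    refine div_le_one_of_le₀ ?_ (apply_nonneg w _)
    rw [hy w hw]
    exact le_ciSup (f := fun j => w (x j)) (Set.finite_range _).bddAbove j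
  choose s hs1 hs2 using hs
  refine ⟨y, ∏ j, s j, hy0, hy, ?_, fun j => ?_⟩
  · push_cast
    rw [map_prod]
    exact Finset.prod_eq_one (fun j _ => hs1 j)
  · have h1 : algebraMap k L ((∏ j, s j : 𝓞 k) : k) * x j / y =
        algebraMap k L ((∏ i ∈ Finset.univ.erase j, s i : 𝓞 k) : k) *
          (algebraMap k L (s j : k) * (x j / y)) := by
      have h3 : ((∏ j, s j : 𝓞 k) : k) = (s j : k) * ((∏ i ∈ Finset.univ.erase j, s i : 𝓞 k) : k) := by
        rw [← Finset.mul_prod_erase _ _ (Finset.mem_univ j)]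
        exact map_mul _ _ _
      rw [h3, map_mul]
      ring
    rw [h1]
    refine IsIntegral.mul ?_ (hs2 j)
    exact (RingOfIntegers.isIntegral_coe _).map (algebraMap k L).toIntAlgHom

end Pool.Agent.Helper30.Ru
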