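import Pool.Agent.Helper92.Ru.GoalsH

/-! H9: dehomogenisation -/

set_option autoImplicit false

open MvPolynomial

namespace Pool.Agent.Helper30.Ru

open Pool.Agent.Helper92.Ru

section

variable {k : Type} [Field k] {m : ℕ} {ι : Type} [Fintype ι] [DecidableEq ι]

/-- exponents -/
noncomputable def piE (l : Fin m → ι) (e : Fin m × ι →₀ ℕ) : Fin m →₀ ℕ :=
  Finsupp.equivFunOnFinite.symm (fun h => e (h, l h))

@[simp] theorem piE_apply (l : Fin m → ι) (e : Fin m × ι →₀ ℕ) (h : Fin m) :
    piE l e h = e (h, l h) := rfl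

/-- dehomogenisation, with weights -/
noncomputable def Dg (l : Fin m → ι) (b : Fin m → k) :
    MvPolynomial (Fin m × ι) k →ₐ[k] MvPolynomial (Fin m) k :=
  aeval (fun p => if p.2 = l p.1 then C (b p.1) * X p.1 else 1)

theorem Dg_monomial (l : Fin m → ι) (b : Fin m → k) (e : Fin m × ι →₀ ℕ) (c : k) :
    Dg l b (monomial e c) = monomial (piE l e) (c * ∏ h, b h ^ e (h, l h)) := by
  unfold Dg
  rw [aeval_monomial, Finsupp.prod_fintype _ _ (fun _ => pow_zero _), Fintype.prod_prod_type]
  have h1 : ∀ h : Fin m, ∏ i, (if i = l h then C (b h) * X h else (1 : MvPolynomial (Fin m) k)) ^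
      e (h, i) = (C (b h) * X h) ^ e (h, l h) := by
    intro h
    rw [Finset.prod_eq_single (l h)]
    · rw [if_pos rfl]
    · intro i _ hi
      rw [if_neg hi, one_pow]
    · intro hh
      exact absurd (Finset.mem_univ _) hh
  simp only [h1]
  rw [monomial_eq, Finsupp.prod_fintype _ _ (fun _ => pow_zero _)]
  simp only [mul_pow, Finset.prod_mul_distrib, piE_apply, map_mul, map_prod, map_pow]
  rw [mul_assoc]
  rfl

theorem Dg_support (l : Fin m → ι) (b : Fin m → k) (f : MvPolynomial (Fin m × ι) k)
    (d : Fin m →₀ ℕ) (hd : d ∈ (Dg l b f).support) : ∃ e ∈ f.support, piE l e = d := by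
  by_contra hcon
  push Not at hcon
  rw [mem_support_iff] at hd
  apply hd
  conv_lhs => rw [f.as_sum]
  rw [map_sum, coeff_sum]
  refine Finset.sum_eq_zero (fun e he => ?_)
  rw [Dg_monomial, coeff_monomial, if_neg (hcon e he)]

theorem red3 : Red3 := by
  intro k _ m ι _ _ r r' P a l1 l2 θ hP hMH ha hl hsupp hInd
  -- the sum over the block
  have hsum : ∀ e ∈ P.support, ∀ h, e (h, l1 h) + e (h, l2 h) = r' h := by
    intro e he h
    rw [← hMH e he h]
    rw [← Finset.add_sum_erase _ _ (Finset.mem_univ (l1 h)),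
      ← Finset.add_sum_erase _ _ (Finset.mem_erase.mpr ⟨(hl h).symm, Finset.mem_univ (l2 h)⟩)]
    rw [Finset.sum_eq_zero (s := (Finset.univ.erase (l1 h)).erase (l2 h))]
    · rfl
    · intro i hi
      rw [Finset.mem_erase, Finset.mem_erase] at hi
      exact hsupp e he h i hi.2.1 hi.1
  have hinj : ∀ e ∈ P.support, ∀ e' ∈ P.support, piE l1 e = piE l1 e' → e = e' := by
    intro e he e' he' h
    ext ⟨j, i⟩
    have h1 : e (j, l1 j) = e' (j, l1 j) := by
      have := DFunLike.congr_fun h j
      simpa using this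
    by_cases hi1 : i = l1 j
    · rw [hi1, h1]
    by_cases hi2 : i = l2 j
    · have h2 := hsum e he j
      have h3 := hsum e' he' j
      rw [hi2]
      omega
    · rw [hsupp e he j i hi1 hi2, hsupp e' he' j i hi1 hi2]
  have hcoeff : ∀ e ∈ P.support, coeff (piE l1 e) (Dg l1 (fun _ => (1 : k)) P) = coeff e P := by
    intro e he
    conv_lhs => rw [P.as_sum]
    rw [map_sum, coeff_sum, Finset.sum_eq_single e]
    · rw [Dg_monomial, coeff_monomial, if_pos rfl]
      simp
    · intro e' he' hne
      rw [Dg_monomial, coeff_monomial, if_neg]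
      intro heq
      exact hne (hinj e' he' e he heq)
    · intro h
      exact absurd he h
  refine ⟨Dg l1 (fun _ => (1 : k)) P, ?_, ?_, ?_, ?_⟩
  · obtain ⟨e, he⟩ := (support_nonempty.mpr hP : P.support.Nonempty)
    intro h0
    have h1 := hcoeff e he
    rw [h0, coeff_zero] at h1
    exact (mem_support_iff.mp he) h1.symm
  · intro h
    rw [degreeOf_le_iff]
    intro d hd
    obtain ⟨e, he, rfl⟩ := Dg_support _ _ _ _ hd
    rw [piE_apply]
    have := hsum e he h
    omega
  · intro d hd
    obtain ⟨e, he, rfl⟩ := Dg_support _ _ _ _ hd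
    exact ⟨e, hcoeff e he⟩
  · have hcomp : ((shiftP (fun h => -(a h (l2 h)) / a h (l1 h)) :
        MvPolynomial (Fin m) k →ₐ[k] MvPolynomial (Fin m) k).comp (Dg l1 (fun _ => (1 : k)))) =
        (Dg l1 (fun h => a h (l1 h))).comp
          (PsiA (fun h i => if i = l1 h ∨ i = l2 h then a h i else 0) l1) := by
      refine algHom_ext (fun p => ?_)
      obtain ⟨h, i⟩ := p
      simp only [AlgHom.comp_apply, Dg, PsiA, aeval_X]
      by_cases hi : i = l1 h
      · subst hi
        simp only [if_true, true_or, map_mul, map_sub, map_sum, aeval_C, aeval_X, algebraMap_eq,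
          map_one, one_mul]
        rw [Finset.sum_eq_single (l2 h)]
        · simp only [shiftP, aeval_X, or_true, if_true, if_neg (hl h).symm, mul_one]
          have h1 : C (a h (l1 h))⁻¹ * C (a h (l1 h)) = (1 : MvPolynomial (Fin m) k) := by
            rw [← map_mul, inv_mul_cancel₀ (ha h), map_one]
          rw [mul_sub, ← mul_assoc, h1, one_mul, ← map_mul, sub_eq_add_neg, ← map_neg]
          congr 2
          field_simp
        · intro i hi hi2
          rw [Finset.mem_erase] at hi
          simp [hi.1, hi2]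
        · intro hh
          exact absurd (Finset.mem_erase.mpr ⟨(hl h).symm, Finset.mem_univ (l2 h)⟩) hh
      · simp [hi]
    intro d hd
    have h1 : shiftP (fun h => -(a h (l2 h)) / a h (l1 h)) (Dg l1 (fun _ => (1 : k)) P) =
        Dg l1 (fun h => a h (l1 h))
          (PsiA (fun h i => if i = l1 h ∨ i = l2 h then a h i else 0) l1 P) :=
      DFunLike.congr_fun hcomp P
    rw [h1] at hd
    obtain ⟨e, he, rfl⟩ := Dg_support _ _ _ _ hd
    exact hInd e he

end

end Pool.Agent.Helper30.Ru
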